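import Mathlib

set_option autoImplicit false

open MeasureTheory Metric Filter
open scoped ENNReal

namespace Pool.Agent.Results.MP_def58e_co.TwelveThirteenths

/-- Euclidean 3-space. -/
abbrev E := EuclideanSpace ℝ (Fin 3)

/-- The closed unit balls with centres in `C` form a packing (their interiors are pairwise
disjoint): distinct centres have distance at least 2. -/
def IsPacking (C : Set E) : Prop := ∀ x ∈ C, ∀ y ∈ C, x ≠ y → 2 ≤ dist x y

/-- Every ball touches at least `k` others: at least `k` centres have distance exactly 2. -/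
def HasNeighbours (k : ℕ) (C : Set E) : Prop :=
  ∀ x ∈ C, (k : ℕ∞) ≤ {y | y ∈ C ∧ dist x y = 2}.encard

/-- The lower density of the union of the closed unit balls with centres in `C`. -/
noncomputable def lowerDensity (C : Set E) : ℝ≥0∞ :=
  liminf (fun R : ℝ => volume (closedBall (0 : E) R ∩ ⋃ x ∈ C, closedBall x 1) /
    volume (closedBall (0 : E) R)) atTop

/-- `δ_k`: the infimum of the lower densities of the nonempty packings of unit balls in which
every ball has at least `k` neighbours. -/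
noncomputable def delta (k : ℕ) : ℝ≥0∞ :=
  ⨅ (C : Set E) (_ : C.Nonempty ∧ IsPacking C ∧ HasNeighbours k C), lowerDensity C

/-- the point `√2 z` -/
noncomputable def P (z : Fin 3 → ℤ) : E := WithLp.toLp 2 (fun i => √2 * (z i : ℝ))

theorem P_apply (z : Fin 3 → ℤ) (i : Fin 3) : (P z) i = √2 * (z i : ℝ) := rfl

/-- the points of `D₃` outside the perfect code -/
def Good (z : Fin 3 → ℤ) : Prop :=
  (2 : ℤ) ∣ z 0 + z 1 + z 2 ∧ ¬ (13 : ℤ) ∣ z 0 + 3 * z 1 + 4 * z 2

def C₀ : Set E := P '' {z | Good z}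

theorem dist_P (z w : Fin 3 → ℤ) : dist (P z) (P w) =
    √(2 * (((z 0 - w 0) ^ 2 + (z 1 - w 1) ^ 2 + (z 2 - w 2) ^ 2 : ℤ) : ℝ)) := by
  rw [EuclideanSpace.dist_eq, Fin.sum_univ_three]
  congr 1
  simp only [P_apply, Real.dist_eq, sq_abs]
  push_cast
  have h : √2 ^ 2 = (2 : ℝ) := Real.sq_sqrt (by norm_num)
  linear_combination ((z 0 - w 0 : ℝ) ^ 2 + (z 1 - w 1) ^ 2 + (z 2 - w 2) ^ 2) * h

theorem C₀_packing : IsPacking C₀ := by
  rintro _ ⟨z, hz, rfl⟩ _ ⟨w, hw, rfl⟩ hne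
  have hzw : z ≠ w := fun h => hne (by rw [h])
  rw [dist_P]
  set n : ℤ := (z 0 - w 0) ^ 2 + (z 1 - w 1) ^ 2 + (z 2 - w 2) ^ 2 with hn
  have h2 : 2 ≤ n := by
    have hpos : 0 < n := by
      by_contra hcon
      apply hzw
      have h0 := sq_nonneg (z 0 - w 0)
      have h1 := sq_nonneg (z 1 - w 1)
      have h2 := sq_nonneg (z 2 - w 2)
      have e0 : (z 0 - w 0) ^ 2 = 0 := by omega
      have e1 : (z 1 - w 1) ^ 2 = 0 := by omega
      have e2 : (z 2 - w 2) ^ 2 = 0 := by omega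
      rw [sq_eq_zero_iff] at e0 e1 e2
      funext i
      fin_cases i
      · show z 0 = w 0; omega
      · show z 1 = w 1; omega
      · show z 2 = w 2; omega
    have heven : (2 : ℤ) ∣ n := by
      have a1 := hz.1
      have a2 := hw.1
      have key : n = (z 0 + z 1 + z 2 - (w 0 + w 1 + w 2)) ^ 2 -
          2 * ((z 0 - w 0) * (z 1 - w 1) + (z 0 - w 0) * (z 2 - w 2) +
            (z 1 - w 1) * (z 2 - w 2)) := by rw [hn]; ring
      rw [key]
      exact dvd_sub (Dvd.dvd.pow (dvd_sub a1 a2) (by norm_num)) (Dvd.intro _ rfl)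
    omega
  have h3 : (2 : ℝ) ≤ (n : ℝ) := by exact_mod_cast h2
  calc (2 : ℝ) = √(2 ^ 2) := by rw [Real.sqrt_sq (by norm_num)]
    _ ≤ √(2 * (n : ℝ)) := Real.sqrt_le_sqrt (by linarith)

/-- the twelve minimal vectors of `D₃` -/
def vs : Fin 12 → Fin 3 → ℤ :=
  ![![1, 1, 0], ![1, -1, 0], ![-1, 1, 0], ![-1, -1, 0], ![1, 0, 1], ![1, 0, -1], ![-1, 0, 1],
    ![-1, 0, -1], ![0, 1, 1], ![0, 1, -1], ![0, -1, 1], ![0, -1, -1]]

theorem vs_even : ∀ j, (2 : ℤ) ∣ vs j 0 + vs j 1 + vs j 2 := by decide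

theorem vs_norm : ∀ j, (vs j 0) ^ 2 + (vs j 1) ^ 2 + (vs j 2) ^ 2 = 2 := by decide

theorem vs_inj : ∀ i j, (13 : ℤ) ∣ (vs i 0 + 3 * vs i 1 + 4 * vs i 2) -
    (vs j 0 + 3 * vs j 1 + 4 * vs j 2) → i = j := by decide

theorem C₀_neighbours : HasNeighbours 11 C₀ := by
  classical
  rintro _ ⟨z, hz, rfl⟩
  let F : Finset (Fin 12) := Finset.univ.filter (fun j =>
    ¬ (13 : ℤ) ∣ (z 0 + vs j 0) + 3 * (z 1 + vs j 1) + 4 * (z 2 + vs j 2))
  have hF : 11 ≤ F.card := by
    have h1 := Finset.card_filter_add_card_filter_not (s := (Finset.univ : Finset (Fin 12)))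
      (fun j => (13 : ℤ) ∣ (z 0 + vs j 0) + 3 * (z 1 + vs j 1) + 4 * (z 2 + vs j 2))
    have h2 : (Finset.univ.filter (fun j =>
        (13 : ℤ) ∣ (z 0 + vs j 0) + 3 * (z 1 + vs j 1) + 4 * (z 2 + vs j 2))).card ≤ 1 := by
      rw [Finset.card_le_one]
      intro i hi j hj
      rw [Finset.mem_filter] at hi hj
      apply vs_inj
      have := dvd_sub hi.2 hj.2
      have e : (z 0 + vs i 0 + 3 * (z 1 + vs i 1) + 4 * (z 2 + vs i 2) -
          (z 0 + vs j 0 + 3 * (z 1 + vs j 1) + 4 * (z 2 + vs j 2))) =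
          (vs i 0 + 3 * vs i 1 + 4 * vs i 2) - (vs j 0 + 3 * vs j 1 + 4 * vs j 2) := by ring
      rw [e] at this
      exact this
    rw [Finset.card_univ, Fintype.card_fin] at h1
    show 11 ≤ (Finset.univ.filter (fun j =>
      ¬ (13 : ℤ) ∣ (z 0 + vs j 0) + 3 * (z 1 + vs j 1) + 4 * (z 2 + vs j 2))).card
    omega
  let f : Fin 12 → E := fun j => P (fun i => z i + vs j i)
  have hinj : Function.Injective f := by
    intro i j hij
    apply vs_inj
    have hc : ∀ l : Fin 3, vs i l = vs j l := by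
      intro l
      have h1 : (f i) l = (f j) l := by rw [hij]
      simp only [f, P_apply] at h1
      have h2 : √2 ≠ 0 := by positivity
      have h3 := mul_left_cancel₀ h2 h1
      have h4 : z l + vs i l = z l + vs j l := by exact_mod_cast h3
      omega
    rw [hc 0, hc 1, hc 2, sub_self]
    exact dvd_zero _
  have hsub : f '' (F : Set (Fin 12)) ⊆ {y | y ∈ C₀ ∧ dist (P z) y = 2} := by
    rintro _ ⟨j, hj, rfl⟩
    have hj' := (Finset.mem_filter.mp (Finset.mem_coe.mp hj)).2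
    refine ⟨⟨fun i => z i + vs j i, ⟨?_, hj'⟩, rfl⟩, ?_⟩
    · have := dvd_add hz.1 (vs_even j)
      have e : z 0 + z 1 + z 2 + (vs j 0 + vs j 1 + vs j 2) =
          (z 0 + vs j 0) + (z 1 + vs j 1) + (z 2 + vs j 2) := by ring
      rw [e] at this
      exact this
    · show dist (P z) (P (fun i => z i + vs j i)) = 2
      rw [dist_P]
      have e : (z 0 - (z 0 + vs j 0)) ^ 2 + (z 1 - (z 1 + vs j 1)) ^ 2 +
          (z 2 - (z 2 + vs j 2)) ^ 2 = 2 := by
        rw [← vs_norm j]; ring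
      rw [e]
      rw [show (2 : ℝ) * ((2 : ℤ) : ℝ) = 2 ^ 2 by norm_num]
      exact Real.sqrt_sq (by norm_num)
  calc ((11 : ℕ) : ℕ∞) ≤ (F.card : ℕ∞) := by exact_mod_cast hF
    _ = (f '' (F : Set (Fin 12))).encard := by
        rw [hinj.encard_image, Set.encard_coe_eq_coe_finsetCard]
    _ ≤ _ := Set.encard_le_encard hsub

/-- the side `26 √2` of the period cube -/
noncomputable def s : ℝ := 26 * √2

theorem s_pos : 0 < s := by unfold s; positivity

/-- the period cubes -/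
def Q (m : Fin 3 → ℤ) : Set E := {y | ∀ i, s * (m i : ℝ) ≤ y i ∧ y i < s * ((m i : ℝ) + 1)}

theorem Q_eq (m : Fin 3 → ℤ) : Q m = (WithLp.ofLp : E → (Fin 3 → ℝ)) ⁻¹'
    (Set.univ.pi (fun i => Set.Ico (s * (m i : ℝ)) (s * ((m i : ℝ) + 1)))) := by
  ext y
  simp only [Q, Set.mem_ofPred_eq, Set.mem_preimage, Set.mem_univ_pi, Set.mem_Ico]

theorem measurable_Q (m : Fin 3 → ℤ) : MeasurableSet (Q m) := by
  rw [Q_eq]
  exact (PiLp.volume_preserving_ofLp (Fin 3)).measurable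
    (MeasurableSet.univ_pi (fun i => measurableSet_Ico))

theorem volume_Q (m : Fin 3 → ℤ) : volume (Q m) = ENNReal.ofReal (s ^ 3) := by
  rw [Q_eq, (PiLp.volume_preserving_ofLp (Fin 3)).measure_preimage
    (MeasurableSet.univ_pi (fun i => measurableSet_Ico)).nullMeasurableSet, Real.volume_pi_Ico]
  have h : ∀ i : Fin 3, ENNReal.ofReal (s * ((m i : ℝ) + 1) - s * (m i : ℝ)) =
      ENNReal.ofReal s := by
    intro i
    congr 1
    ring
  rw [Finset.prod_congr rfl (fun i _ => h i), Finset.prod_const, Finset.card_univ,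
    Fintype.card_fin, ENNReal.ofReal_pow s_pos.le]

theorem disjoint_Q (m m' : Fin 3 → ℤ) (h : m ≠ m') : Disjoint (Q m) (Q m') := by
  have key : ∀ (a b : Fin 3 → ℤ) (i : Fin 3), a i < b i → ∀ y, y ∈ Q a → y ∈ Q b → False := by
    intro a b i hlt y ha hb
    have h1 := (ha i).2
    have h2 := (hb i).1
    have h3 : ((a i : ℝ) + 1) ≤ (b i : ℝ) := by exact_mod_cast hlt
    have h4 := mul_le_mul_of_nonneg_left h3 s_pos.le
    linarith
  rw [Set.disjoint_left]
  intro y hy hy'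
  obtain ⟨i, hi⟩ := Function.ne_iff.mp h
  rcases lt_or_gt_of_ne hi with hlt | hlt
  · exact key m m' i hlt y hy hy'
  · exact key m' m i hlt y hy' hy

theorem Q_subset (m : Fin 3 → ℤ) (R : ℝ) (h : (Q m ∩ closedBall (0 : E) (R + 1)).Nonempty) :
    Q m ⊆ closedBall (0 : E) (R + 1 + 2 * s) := by
  obtain ⟨y₀, hy₀, hb⟩ := h
  intro y hy
  rw [mem_closedBall] at hb ⊢
  have hd : dist y y₀ ≤ 2 * s := by
    rw [EuclideanSpace.dist_eq, Fin.sum_univ_three]
    have hc : ∀ i, dist (y i) (y₀ i) ^ 2 ≤ s ^ 2 := by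
      intro i
      rw [Real.dist_eq, sq_abs]
      have h1 := (hy i).1
      have h2 := (hy i).2
      have h3 := (hy₀ i).1
      have h4 := (hy₀ i).2
      have h5 : y i - y₀ i ≤ s := by nlinarith
      have h6 : -s ≤ y i - y₀ i := by nlinarith
      exact sq_le_sq' h6 h5
    rw [Real.sqrt_le_left (by linarith [s_pos])]
    have := hc 0
    have := hc 1
    have := hc 2
    nlinarith [sq_nonneg s]
  calc dist y 0 ≤ dist y y₀ + dist y₀ 0 := dist_triangle _ _ _
    _ ≤ 2 * s + (R + 1) := add_le_add hd hb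
    _ = R + 1 + 2 * s := by ring

/-- residues of the good points modulo 26 -/
def W : Finset ((ℕ × ℕ) × ℕ) := ((Finset.range 26 ×ˢ Finset.range 26) ×ˢ Finset.range 26).filter
  (fun w => (w.1.1 + w.1.2 + w.2) % 2 = 0 ∧ (w.1.1 + 3 * w.1.2 + 4 * w.2) % 13 ≠ 0)

theorem inner_card : ∀ t ∈ Finset.range 26, ((Finset.range 26).filter
    (fun c => (t + c) % 2 = 0 ∧ (t + 4 * c) % 13 ≠ 0)).card = 12 := by decide

theorem W_card : W.card = 8112 := by
  rw [W, Finset.card_filter, Finset.sum_product]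
  have h : ∀ x ∈ Finset.range 26 ×ˢ Finset.range 26, (∑ c ∈ Finset.range 26,
      if ((x, c).1.1 + (x, c).1.2 + (x, c).2) % 2 = 0 ∧
        ((x, c).1.1 + 3 * (x, c).1.2 + 4 * (x, c).2) % 13 ≠ 0 then 1 else 0) = 12 := by
    intro x _
    rw [← Finset.card_filter, ← inner_card ((x.1 + 3 * x.2) % 26)
      (Finset.mem_range.mpr (Nat.mod_lt _ (by norm_num)))]
    congr 1
    apply Finset.filter_congr
    intro c _
    constructor
    · rintro ⟨h1, h2⟩
      simp only at h1 h2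
      constructor <;> omega
    · rintro ⟨h1, h2⟩
      simp only
      constructor <;> omega
  rw [Finset.sum_congr rfl h, Finset.sum_const, Finset.card_product, Finset.card_range]
  norm_num

/-- the point with cube index `m` and residue `w` -/
def pt (m : Fin 3 → ℤ) (w : (ℕ × ℕ) × ℕ) : Fin 3 → ℤ :=
  ![26 * m 0 + w.1.1, 26 * m 1 + w.1.2, 26 * m 2 + w.2]

open Classical in
/-- the cubes meeting the ball of radius `R + 1` -/
noncomputable def K (R : ℝ) : Finset (Fin 3 → ℤ) :=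
  (Fintype.piFinset (fun _ : Fin 3 => Finset.Icc (-((⌈R⌉₊ : ℤ) + 3)) ((⌈R⌉₊ : ℤ) + 3))).filter
    (fun m => (Q m ∩ closedBall (0 : E) (R + 1)).Nonempty)

theorem mem_K (R : ℝ) (m : Fin 3 → ℤ) : m ∈ K R ↔
    (∀ i, m i ∈ Finset.Icc (-((⌈R⌉₊ : ℤ) + 3)) ((⌈R⌉₊ : ℤ) + 3)) ∧
      (Q m ∩ closedBall (0 : E) (R + 1)).Nonempty := by
  classical
  unfold K
  simp only [Finset.mem_filter, Fintype.mem_piFinset]

theorem mem_union {α β : Type*} (K' : Finset α) (W' : Finset β) (f : α → β → Set E) (y : E)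
    (m : α) (hm : m ∈ K') (w : β) (hw : w ∈ W') (h : y ∈ f m w) :
    y ∈ ⋃ m ∈ K', ⋃ w ∈ W', f m w :=
  Set.mem_biUnion hm (Set.mem_biUnion hw h)

theorem exists_pt (z : Fin 3 → ℤ) (hz : Good z) : ∃ w ∈ W, pt (fun i => z i / 26) w = z := by
  have h1 := hz.1
  have h2 := hz.2
  refine ⟨(((z 0 % 26).toNat, (z 1 % 26).toNat), (z 2 % 26).toNat), ?_, ?_⟩
  · rw [W, Finset.mem_filter, Finset.mem_product, Finset.mem_product, Finset.mem_range,
      Finset.mem_range, Finset.mem_range]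
    refine ⟨⟨⟨?_, ?_⟩, ?_⟩, ?_, ?_⟩
    · show (z 0 % 26).toNat < 26
      omega
    · show (z 1 % 26).toNat < 26
      omega
    · show (z 2 % 26).toNat < 26
      omega
    · show ((z 0 % 26).toNat + (z 1 % 26).toNat + (z 2 % 26).toNat) % 2 = 0
      omega
    · show ((z 0 % 26).toNat + 3 * (z 1 % 26).toNat + 4 * (z 2 % 26).toNat) % 13 ≠ 0
      omega
  · funext i
    fin_cases i
    · show 26 * (z 0 / 26) + (((z 0 % 26).toNat : ℕ) : ℤ) = z 0
      omega
    · show 26 * (z 1 / 26) + (((z 1 % 26).toNat : ℕ) : ℤ) = z 1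
      omega
    · show 26 * (z 2 / 26) + (((z 2 % 26).toNat : ℕ) : ℤ) = z 2
      omega

attribute [irreducible] W

theorem cover (R : ℝ) : closedBall (0 : E) R ∩ ⋃ x ∈ C₀, closedBall x 1 ⊆
    ⋃ m ∈ K R, ⋃ w ∈ W, closedBall (P (pt m w)) 1 := by
  rintro y ⟨hy, hy'⟩
  simp only [Set.mem_iUnion] at hy'
  obtain ⟨_, ⟨z, hz, rfl⟩, hyz⟩ := hy'
  rw [mem_closedBall] at hy hyz
  have hPz : dist (P z) 0 ≤ R + 1 := by
    calc dist (P z) 0 ≤ dist (P z) y + dist y 0 := dist_triangle _ _ _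
      _ ≤ 1 + R := add_le_add (by rw [dist_comm]; exact hyz) hy
      _ = R + 1 := by ring
  have hcoord : ∀ i, |√2 * (z i : ℝ)| ≤ R + 1 := by
    intro i
    have h := PiLp.norm_apply_le (P z) i
    rw [P_apply, Real.norm_eq_abs] at h
    rw [dist_zero_right] at hPz
    exact h.trans hPz
  have h2pos : (0 : ℝ) < √2 := by positivity
  have h21 : (1 : ℝ) ≤ √2 := by
    rw [Real.one_le_sqrt]; norm_num
  have hz_abs : ∀ i, |(z i : ℝ)| ≤ R + 1 := by
    intro i
    have h := hcoord i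
    rw [abs_mul, abs_of_pos h2pos] at h
    have := abs_nonneg (z i : ℝ)
    nlinarith
  obtain ⟨w, hw, hpt⟩ := exists_pt z hz
  obtain ⟨m, hmz⟩ : ∃ m : Fin 3 → ℤ, m = fun i => z i / 26 := ⟨_, rfl⟩
  rw [← hmz] at hpt
  have hm : m ∈ K R := by
    rw [mem_K, hmz]
    constructor
    · intro i
      rw [Finset.mem_Icc]
      have h := abs_le.mp (hz_abs i)
      have hR : R ≤ (⌈R⌉₊ : ℝ) := Nat.le_ceil R
      have h1 : z i ≤ (⌈R⌉₊ : ℤ) + 1 := by
        have : (z i : ℝ) ≤ (⌈R⌉₊ : ℝ) + 1 := by linarith [h.2]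
        exact_mod_cast this
      have h2 : -((⌈R⌉₊ : ℤ) + 1) ≤ z i := by
        have : -((⌈R⌉₊ : ℝ) + 1) ≤ (z i : ℝ) := by linarith [h.1]
        exact_mod_cast this
      show -((⌈R⌉₊ : ℤ) + 3) ≤ z i / 26 ∧ z i / 26 ≤ (⌈R⌉₊ : ℤ) + 3
      omega
    · refine ⟨P z, ?_, by rw [mem_closedBall]; exact hPz⟩
      intro i
      rw [P_apply]
      have h1 : (26 * ((z i / 26 : ℤ) : ℝ)) ≤ (z i : ℝ) := by
        have : 26 * (z i / 26) ≤ z i := by omega
        exact_mod_cast this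
      have h2 : (z i : ℝ) < 26 * (((z i / 26 : ℤ) : ℝ) + 1) := by
        have : z i < 26 * (z i / 26 + 1) := by omega
        exact_mod_cast this
      show s * ((z i / 26 : ℤ) : ℝ) ≤ √2 * (z i : ℝ) ∧
        √2 * (z i : ℝ) < s * (((z i / 26 : ℤ) : ℝ) + 1)
      unfold s
      constructor
      · nlinarith
      · nlinarith
  have hfin : y ∈ closedBall (P (pt m w)) 1 := by
    rw [hpt, mem_closedBall]
    exact hyz
  rw [Set.mem_iUnion₂]
  refine ⟨m, hm, ?_⟩
  rw [Set.mem_iUnion₂]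
  exact Exists.intro w (Exists.intro hw hfin)

theorem K_card (R : ℝ) (hR : 0 ≤ R) :
    ((K R).card : ℝ) * s ^ 3 ≤ (R + 1 + 2 * s) ^ 3 * (Real.pi * 4 / 3) := by
  have h1 : ∑ m ∈ K R, volume (Q m) ≤ volume (closedBall (0 : E) (R + 1 + 2 * s)) := by
    rw [← measure_biUnion_finset (fun m _ m' _ h => disjoint_Q m m' h)
      (fun m _ => measurable_Q m)]
    apply measure_mono
    intro y hy
    simp only [Set.mem_iUnion] at hy
    obtain ⟨m, hm, hy⟩ := hy
    rw [mem_K] at hm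
    exact Q_subset m R hm.2 hy
  rw [Finset.sum_congr rfl (fun m _ => volume_Q m), Finset.sum_const, nsmul_eq_mul,
    EuclideanSpace.volume_closedBall_fin_three] at h1
  have hs := s_pos
  rw [← ENNReal.ofReal_natCast, ← ENNReal.ofReal_mul (Nat.cast_nonneg _),
    ← ENNReal.ofReal_pow (by positivity), ← ENNReal.ofReal_mul (by positivity)] at h1
  exact (ENNReal.ofReal_le_ofReal_iff (by positivity)).mp h1

theorem ratio (R : ℝ) (hR : 1 ≤ R) :
    volume (closedBall (0 : E) R ∩ ⋃ x ∈ C₀, closedBall x 1) / volume (closedBall (0 : E) R) ≤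
      ENNReal.ofReal (8112 * (Real.pi * 4 / 3) / s ^ 3 * (1 + (1 + 2 * s) * R⁻¹) ^ 3) := by
  have hs := s_pos
  have hpi := Real.pi_pos
  have hR0 : 0 < R := by linarith
  have h1 : volume (closedBall (0 : E) R ∩ ⋃ x ∈ C₀, closedBall x 1) ≤
      ENNReal.ofReal (((K R).card : ℝ) * (8112 * (Real.pi * 4 / 3))) := by
    calc volume (closedBall (0 : E) R ∩ ⋃ x ∈ C₀, closedBall x 1)
        ≤ volume (⋃ m ∈ K R, ⋃ w ∈ W, closedBall (P (pt m w)) 1) := measure_mono (cover R)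
      _ ≤ ∑ m ∈ K R, volume (⋃ w ∈ W, closedBall (P (pt m w)) 1) :=
          measure_biUnion_finset_le _ _
      _ ≤ ∑ m ∈ K R, ∑ w ∈ W, volume (closedBall (P (pt m w)) 1) :=
          Finset.sum_le_sum (fun m _ => measure_biUnion_finset_le _ _)
      _ = ∑ m ∈ K R, ∑ w ∈ W, ENNReal.ofReal (Real.pi * 4 / 3) := by
          refine Finset.sum_congr rfl (fun m _ => Finset.sum_congr rfl (fun w _ => ?_))
          rw [EuclideanSpace.volume_closedBall_fin_three, ENNReal.ofReal_one, one_pow, one_mul]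
      _ = ENNReal.ofReal (((K R).card : ℝ) * (8112 * (Real.pi * 4 / 3))) := by
          rw [Finset.sum_const, Finset.sum_const, W_card, nsmul_eq_mul, nsmul_eq_mul,
            ENNReal.ofReal_mul (Nat.cast_nonneg _), ENNReal.ofReal_mul (by norm_num),
            ENNReal.ofReal_natCast]
          norm_num
  have h2 : volume (closedBall (0 : E) R) = ENNReal.ofReal (R ^ 3 * (Real.pi * 4 / 3)) := by
    rw [EuclideanSpace.volume_closedBall_fin_three, ENNReal.ofReal_mul (by positivity),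
      ENNReal.ofReal_pow hR0.le]
  have h3 := K_card R hR0.le
  rw [h2]
  refine (ENNReal.div_le_div_right h1 _).trans ?_
  rw [← ENNReal.ofReal_div_of_pos (by positivity)]
  apply ENNReal.ofReal_le_ofReal
  rw [div_le_iff₀ (by positivity)]
  have h4 : 1 + (1 + 2 * s) * R⁻¹ = (R + 1 + 2 * s) / R := by
    field_simp
    ring
  rw [h4, div_pow]
  have h5 : 8112 * (Real.pi * 4 / 3) / s ^ 3 * ((R + 1 + 2 * s) ^ 3 / R ^ 3) *
      (R ^ 3 * (Real.pi * 4 / 3)) =
      8112 * (Real.pi * 4 / 3) * (((R + 1 + 2 * s) ^ 3 * (Real.pi * 4 / 3)) / s ^ 3) := by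
    field_simp
  rw [h5]
  have h6 : ((K R).card : ℝ) ≤ ((R + 1 + 2 * s) ^ 3 * (Real.pi * 4 / 3)) / s ^ 3 := by
    rw [le_div_iff₀ (by positivity)]
    exact h3
  have h7 : (0 : ℝ) ≤ 8112 * (Real.pi * 4 / 3) := by positivity
  nlinarith [mul_le_mul_of_nonneg_left h6 h7]

theorem const_eq : 8112 * (Real.pi * 4 / 3) / s ^ 3 = 12 / 13 * (Real.pi / √18) := by
  have h18 : √18 = 3 * √2 := by
    rw [show (18 : ℝ) = 3 ^ 2 * 2 by norm_num, Real.sqrt_mul (by norm_num),
      Real.sqrt_sq (by norm_num)]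
  have h2 : √2 ^ 2 = (2 : ℝ) := Real.sq_sqrt (by norm_num)
  have h2' : (0 : ℝ) < √2 := by positivity
  have hs : s ^ 3 = 35152 * √2 := by
    unfold s
    calc (26 * √2) ^ 3 = 17576 * √2 ^ 2 * √2 := by ring
      _ = 35152 * √2 := by rw [h2]; ring
  rw [hs, h18]
  field_simp
  norm_num

/-- The minimum density of an eleven-neighbour packing is at most `(12/13) π/√18`. -/
theorem result : delta 11 ≤ ENNReal.ofReal (12 / 13 * (Real.pi / √18)) := by
  have hne : C₀.Nonempty := by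
    refine ⟨P ![1, 1, 0], ![1, 1, 0], ⟨?_, ?_⟩, rfl⟩
    · show (2 : ℤ) ∣ 1 + 1 + 0
      norm_num
    · show ¬ (13 : ℤ) ∣ 1 + 3 * 1 + 4 * 0
      norm_num
  refine (iInf₂_le C₀ ⟨hne, C₀_packing, C₀_neighbours⟩).trans ?_
  have hlim : Tendsto (fun R : ℝ => ENNReal.ofReal
      (8112 * (Real.pi * 4 / 3) / s ^ 3 * (1 + (1 + 2 * s) * R⁻¹) ^ 3)) atTop
      (nhds (ENNReal.ofReal (12 / 13 * (Real.pi / √18)))) := by
    apply ENNReal.tendsto_ofReal
    have h1 : Tendsto (fun R : ℝ => 1 + (1 + 2 * s) * R⁻¹) atTop (nhds (1 + (1 + 2 * s) * 0)) :=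
      tendsto_const_nhds.add (tendsto_const_nhds.mul tendsto_inv_atTop_zero)
    have h2 := (h1.pow 3).const_mul (8112 * (Real.pi * 4 / 3) / s ^ 3)
    have h3 : 8112 * (Real.pi * 4 / 3) / s ^ 3 * (1 + (1 + 2 * s) * 0) ^ 3 =
        12 / 13 * (Real.pi / √18) := by
      rw [← const_eq]; ring
    rw [h3] at h2
    exact h2
  rw [← hlim.liminf_eq]
  unfold lowerDensity
  exact liminf_le_liminf (by
    filter_upwards [eventually_ge_atTop (1 : ℝ)] with R hR
    exact ratio R hR)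

end Pool.Agent.Results.MP_def58e_co.TwelveThirteenths
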